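import Pool.Agent.H85.ERG.Targets

/-!
# Polygonal billiards, cutoff along the orbits, row PV: the volume of sets of states
-/

set_option autoImplicit false

namespace Pool.Agent.H81.ERG

open MeasureTheory Set Metric Filter Topology Pool.Agent.H85.ERG Pool.Agent.H93.EN
open Pool.Agent.H93.BL hiding T_B1 T_B2 T_B3 T_SB T_SC

theorem meas_state : Measurable fun q : ℂ × ℝ => (q.1, Complex.exp ((q.2 : ℂ) * Complex.I)) := by
  have h1 : Continuous fun q : ℂ × ℝ => (q.1, Complex.exp ((q.2 : ℂ) * Complex.I)) := by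
    fun_prop
  exact h1.measurable

theorem meas_ind {A : Set (ℂ × ℂ)} (hA : MeasurableSet A) :
    Measurable fun q : ℂ × ℝ =>
      A.indicator (1 : ℂ × ℂ → ENNReal) (q.1, Complex.exp ((q.2 : ℂ) * Complex.I)) := by
  have h1 : Measurable (A.indicator (1 : ℂ × ℂ → ENNReal)) := measurable_one.indicator hA
  exact h1.comp meas_state

theorem pv_eq {ι : Type} (P : Polygon ι) (A : Set (ℂ × ℂ)) :
    pv P A = ∫⁻ x, ∫⁻ θ in Ioo 0 (2 * Real.pi),
      (A ∩ (P.Ω ×ˢ univ)).indicator (1 : ℂ × ℂ → ENNReal)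
        (x, Complex.exp ((θ : ℂ) * Complex.I)) := by
  unfold pv PI
  rw [← lintegral_indicator P.isOpen.measurableSet]
  refine lintegral_congr fun x => ?_
  by_cases hx : x ∈ P.Ω
  · rw [indicator_of_mem hx]
    refine lintegral_congr fun θ => ?_
    show A.indicator (1 : ℂ × ℂ → ENNReal) (x, Complex.exp ((θ : ℂ) * Complex.I)) = _
    by_cases hA : (x, Complex.exp ((θ : ℂ) * Complex.I)) ∈ A
    · have h2 : (x, Complex.exp ((θ : ℂ) * Complex.I)) ∈ A ∩ (P.Ω ×ˢ univ) :=
        ⟨hA, hx, mem_univ _⟩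
      rw [indicator_of_mem hA, indicator_of_mem h2]
    · have h2 : (x, Complex.exp ((θ : ℂ) * Complex.I)) ∉ A ∩ (P.Ω ×ˢ univ) := fun h => hA h.1
      rw [indicator_of_notMem hA, indicator_of_notMem h2]
  · rw [indicator_of_notMem hx]
    have h2 : ∀ θ : ℝ, (A ∩ (P.Ω ×ˢ univ)).indicator (1 : ℂ × ℂ → ENNReal)
        (x, Complex.exp ((θ : ℂ) * Complex.I)) = 0 := by
      intro θ
      refine indicator_of_notMem ?_ _
      rintro ⟨-, h3, -⟩
      exact hx h3
    simp only [h2, lintegral_zero]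

theorem pvv (h1 : T_MI) : T_PV := by
  intro ι P
  refine ⟨?_, ?_, ?_, ?_⟩
  · unfold pv PI
    simp
  · intro A B hAB
    unfold pv PI
    refine setLIntegral_mono' P.isOpen.measurableSet fun x hx => lintegral_mono fun θ => ?_
    have hw : ‖Complex.exp ((θ : ℂ) * Complex.I)‖ = 1 := Complex.norm_exp_ofReal_mul_I θ
    by_cases hA : (x, Complex.exp ((θ : ℂ) * Complex.I)) ∈ A
    · have hB := hAB x _ hx hw hA
      simp only [indicator_of_mem hA, indicator_of_mem hB]
      exact le_rfl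
    · simp only [indicator_of_notMem hA]
      exact bot_le
  · intro A B hA
    unfold pv PI
    have hm := meas_ind hA
    rw [← lintegral_add_left (hm.lintegral_prod_right')]
    refine lintegral_mono fun x => ?_
    have hmx : Measurable fun θ : ℝ =>
        A.indicator (1 : ℂ × ℂ → ENNReal) (x, Complex.exp ((θ : ℂ) * Complex.I)) :=
      hm.comp measurable_prodMk_left
    show _ ≤ (∫⁻ θ in Ioo 0 (2 * Real.pi),
      A.indicator (1 : ℂ × ℂ → ENNReal) (x, Complex.exp ((θ : ℂ) * Complex.I))) + _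
    rw [← lintegral_add_left hmx]
    refine lintegral_mono fun θ => ?_
    show (A ∪ B).indicator (1 : ℂ × ℂ → ENNReal) (x, Complex.exp ((θ : ℂ) * Complex.I)) ≤
      A.indicator (1 : ℂ × ℂ → ENNReal) (x, Complex.exp ((θ : ℂ) * Complex.I)) +
        B.indicator (1 : ℂ × ℂ → ENNReal) (x, Complex.exp ((θ : ℂ) * Complex.I))
    by_cases hA' : (x, Complex.exp ((θ : ℂ) * Complex.I)) ∈ A
    · have hAB : (x, Complex.exp ((θ : ℂ) * Complex.I)) ∈ A ∪ B := Or.inl hA'
      rw [indicator_of_mem hAB, indicator_of_mem hA']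
      exact self_le_add_right _ _
    · by_cases hB' : (x, Complex.exp ((θ : ℂ) * Complex.I)) ∈ B
      · have hAB : (x, Complex.exp ((θ : ℂ) * Complex.I)) ∈ A ∪ B := Or.inr hB'
        rw [indicator_of_mem hAB, indicator_of_mem hB']
        exact self_le_add_left _ _
      · have hAB : (x, Complex.exp ((θ : ℂ) * Complex.I)) ∉ A ∪ B := fun h => h.elim hA' hB'
        rw [indicator_of_notMem hAB]
        exact bot_le
  · intro A hA
    have hneg : Measurable fun z : ℂ × ℂ => (z.1, -z.2) :=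
      measurable_fst.prodMk measurable_snd.neg
    refine ⟨hneg hA, ?_⟩
    rw [pv_eq, pv_eq]
    have hAm : MeasurableSet (A ∩ (P.Ω ×ˢ (univ : Set ℂ))) :=
      hA.inter (P.isOpen.measurableSet.prod MeasurableSet.univ)
    have hgm : Measurable ((A ∩ (P.Ω ×ˢ (univ : Set ℂ))).indicator (1 : ℂ × ℂ → ENNReal)) :=
      measurable_one.indicator hAm
    have h3 := (h1 ι P 0 _ hgm).2.2
    rw [← h3]
    refine lintegral_congr fun x => lintegral_congr fun θ => ?_
    by_cases hx : (x, -Complex.exp ((θ : ℂ) * Complex.I)) ∈ A ∩ (P.Ω ×ˢ (univ : Set ℂ))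
    · have hy : (x, Complex.exp ((θ : ℂ) * Complex.I)) ∈
          {z : ℂ × ℂ | (z.1, -z.2) ∈ A} ∩ (P.Ω ×ˢ (univ : Set ℂ)) := ⟨hx.1, hx.2.1, mem_univ _⟩
      rw [indicator_of_mem hx, indicator_of_mem hy]
      rfl
    · have hy : (x, Complex.exp ((θ : ℂ) * Complex.I)) ∉
          {z : ℂ × ℂ | (z.1, -z.2) ∈ A} ∩ (P.Ω ×ˢ (univ : Set ℂ)) :=
        fun h => hx ⟨h.1, h.2.1, mem_univ _⟩
      rw [indicator_of_notMem hx, indicator_of_notMem hy]

end Pool.Agent.H81.ERG
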